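import Pool.Agent.Helper826.Wood.Core

/-!
Every spanning subgraph of a graph `G(p₁, …, p_k)` with `n` vertices (a family of series-parallel
graphs) has a straight-line grid drawing of area at most `2 n ^ (log₃ 6)`, `log₃ 6 = 1.63…`.
-/

set_option autoImplicit false

namespace Pool.Agent.Results.MP_68dca0_co.IteratedTriangles

open Pool.Agent.Helper826.Wood

/-- Adjacency after one step: the old vertices are adjacent as in `G`; for every edge `e` of `G`
there are `q` new vertices `(e, i)`, each adjacent to exactly the two ends of `e`. -/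
def extAdj {V : Type} (G : SimpleGraph V) (q : ℕ) :
    V ⊕ (G.edgeSet × Fin q) → V ⊕ (G.edgeSet × Fin q) → Prop
  | .inl a, .inl b => G.Adj a b
  | .inl a, .inr x => a ∈ (x.1 : Sym2 V)
  | .inr x, .inl a => a ∈ (x.1 : Sym2 V)
  | .inr _, .inr _ => False

/-- One step of the construction: for every edge of `G`, `q` new vertices, each adjacent to exactly
its two ends. -/
def ext {V : Type} (G : SimpleGraph V) (q : ℕ) : SimpleGraph (V ⊕ (G.edgeSet × Fin q)) where
  Adj := extAdj G q
  symm := by
    constructor
    rintro (a | x) (b | y) h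
    · exact SimpleGraph.Adj.symm (G := G) h
    · exact h
    · exact h
    · exact h
  loopless := by
    constructor
    rintro (a | x) h
    · exact G.irrefl h
    · exact h

/-- `iter [p₁, …, p_k]` is the graph `G(p₁, …, p_k)` together with its vertex type: start with the
triangle and perform the steps `p₁`, …, `p_k` one after the other. -/
def iter (p : List ℕ) : Σ V : Type, SimpleGraph V :=
  p.foldl (fun X q => ⟨X.1 ⊕ (X.2.edgeSet × Fin q), ext X.2 q⟩) ⟨Fin 3, ⊤⟩

/-- The point of the plane with the given integer coordinates. -/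
def pt (q : ℤ × ℤ) : ℝ × ℝ := ((q.1 : ℝ), (q.2 : ℝ))

/-- `f` is a straight-line grid drawing of `G` with width at most `W` and height at most `H`:
distinct vertices are placed at distinct integer points, no edge segment contains a vertex other
than its ends, two different edge segments meet at most in a common end, and all the vertices are
in the box `[0, W] × [0, H]`. -/
structure IsGridDrawing {V : Type} (G : SimpleGraph V) (f : V → ℤ × ℤ) (W H : ℕ) : Prop where
  inj : Function.Injective f
  vertex : ∀ u v w : V, G.Adj u v → w ≠ u → w ≠ v → pt (f w) ∉ segment ℝ (pt (f u)) (pt (f v))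
  cross : ∀ u v x y : V, G.Adj u v → G.Adj x y → s(u, v) ≠ s(x, y) → ∀ q : ℝ × ℝ,
    q ∈ segment ℝ (pt (f u)) (pt (f v)) → q ∈ segment ℝ (pt (f x)) (pt (f y)) →
      ∃ z : V, z ∈ s(u, v) ∧ z ∈ s(x, y) ∧ q = pt (f z)
  box : ∀ v : V, 0 ≤ (f v).1 ∧ (f v).1 ≤ W ∧ 0 ≤ (f v).2 ∧ (f v).2 ≤ H

/-! ### Levels -/

structure HypV {V : Type} (G : SimpleGraph V) (k : ℕ) (p : ℕ → ℕ) (lev : V → ℕ) : Prop where
  pos : ∀ j : ℕ, 1 ≤ j → j ≤ k → 0 < p j
  lev_le : ∀ v, lev v ≤ k
  three : {v : V | lev v = 0}.ncard = 3
  base : ∀ u v : V, lev u = 0 → lev v = 0 → u ≠ v → G.Adj u v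
  same : ∀ u v : V, G.Adj u v → lev u = lev v → lev u = 0
  par : ∀ x : V, 1 ≤ lev x → ∃ v w : V, v ≠ w ∧ G.Adj v w ∧ lev v < lev x ∧
            lev w < lev x ∧ G.Adj x v ∧ G.Adj x w ∧
            ∀ u : V, G.Adj x u → lev u < lev x → u = v ∨ u = w
  cnt : ∀ j : ℕ, 1 ≤ j → j ≤ k → ∀ v w : V, G.Adj v w → lev v < j → lev w < j →
            {x : V | lev x = j ∧ G.Adj x v ∧ G.Adj x w}.ncard = p j

theorem hyp_zero : HypV (⊤ : SimpleGraph (Fin 3)) 0 (fun _ => 0) (fun _ => 0) where
  pos := by intro j h1 h2; omega
  lev_le := by intro v; exact le_rfl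
  three := by
    have : {v : Fin 3 | (fun _ : Fin 3 => 0) v = 0} = Set.univ := by ext; simp
    rw [this, Set.ncard_univ, Nat.card_eq_fintype_card, Fintype.card_fin]
  base := by intro u v _ _ h; simpa using h
  same := by intro u v _ _; rfl
  par := by intro x hx; exact absurd hx (by norm_num)
  cnt := by intro j h1 h2; omega

theorem hyp_step {V : Type} {G : SimpleGraph V} {k q : ℕ} {p : ℕ → ℕ} {lev : V → ℕ}
    (h : HypV G k p lev) (hq : 0 < q) :
    HypV (ext G q) (k + 1) (fun j => if j = k + 1 then q else p j)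
      (Sum.elim lev (fun _ => k + 1)) where
  pos := by
    intro j h1 h2
    by_cases hj : j = k + 1
    · simp [hj, hq]
    · simp only [hj, if_false]
      exact h.pos j h1 (by omega)
  lev_le := by
    rintro (a | x)
    · have := h.lev_le a
      simp only [Sum.elim_inl]
      omega
    · simp
  three := by
    have : {v : V ⊕ (G.edgeSet × Fin q) | Sum.elim lev (fun _ => k + 1) v = 0} =
        Sum.inl '' {v : V | lev v = 0} := by
      ext v
      rcases v with a | x
      · simp
      · simp
    rw [this, Set.ncard_image_of_injective _ Sum.inl_injective]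
    exact h.three
  base := by
    rintro (a | x) (b | y) h1 h2 h3
    · exact h.base a b h1 h2 (fun e => h3 (by rw [e]))
    · simp at h2
    · simp at h1
    · simp at h1
  same := by
    rintro (a | x) (b | y) h1 h2
    · exact h.same a b h1 h2
    · have := h.lev_le a
      simp only [Sum.elim_inl, Sum.elim_inr] at h2
      omega
    · have := h.lev_le b
      simp only [Sum.elim_inl, Sum.elim_inr] at h2
      omega
    · exact absurd h1 (fun h => h)
  par := by
    rintro (a | ⟨⟨e, he⟩, i⟩) hx
    · obtain ⟨v, w, q1, q2, q3, q4, q5, q6, q7⟩ := h.par a hx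
      refine ⟨Sum.inl v, Sum.inl w, fun e => q1 (Sum.inl_injective e), q2, q3, q4, q5, q6, ?_⟩
      rintro (b | y) g1 g2
      · rcases q7 b g1 g2 with rfl | rfl
        · exact Or.inl rfl
        · exact Or.inr rfl
      · have := h.lev_le a
        simp only [Sum.elim_inl, Sum.elim_inr] at g2
        omega
    · induction e using Sym2.ind with
      | _ v w =>
        have hvw : G.Adj v w := he
        refine ⟨Sum.inl v, Sum.inl w, fun e => hvw.ne (Sum.inl_injective e), hvw, ?_, ?_, ?_, ?_, ?_⟩
        · have := h.lev_le v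
          simp only [Sum.elim_inl, Sum.elim_inr]
          omega
        · have := h.lev_le w
          simp only [Sum.elim_inl, Sum.elim_inr]
          omega
        · exact Sym2.mem_mk_left v w
        · exact Sym2.mem_mk_right v w
        · rintro (b | y) g1 g2
          · have g3 : b ∈ s(v, w) := g1
            rcases Sym2.mem_iff.mp g3 with rfl | rfl
            · exact Or.inl rfl
            · exact Or.inr rfl
          · exact absurd g1 (fun h => h)
  cnt := by
    intro j h1 h2 v w hvw hv hw
    have nr : ∀ x : G.edgeSet × Fin q,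
        Sum.elim lev (fun _ => k + 1) (Sum.inr x : V ⊕ (G.edgeSet × Fin q)) = k + 1 := fun _ => rfl
    rcases v with v | x
    · rcases w with w | y
      · by_cases hj : j = k + 1
        · subst hj
          simp only [if_true]
          have hmem : s(v, w) ∈ G.edgeSet := hvw
          have : {x : V ⊕ (G.edgeSet × Fin q) | Sum.elim lev (fun _ => k + 1) x = k + 1 ∧
              (ext G q).Adj x (Sum.inl v) ∧ (ext G q).Adj x (Sum.inl w)} =
              (fun i : Fin q => (Sum.inr (⟨s(v, w), hmem⟩, i) : V ⊕ (G.edgeSet × Fin q))) ''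
                Set.univ := by
            ext x
            constructor
            · rintro ⟨g1, g2, g3⟩
              rcases x with a | ⟨⟨e, he⟩, i⟩
              · have := h.lev_le a
                simp only [Sum.elim_inl] at g1
                omega
              · have g2' : v ∈ e := g2
                have g3' : w ∈ e := g3
                have hvw' : G.Adj v w := hvw
                have he' : e = s(v, w) := (Sym2.mem_and_mem_iff hvw'.ne).mp ⟨g2', g3'⟩
                subst he'
                exact ⟨i, trivial, rfl⟩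
            · rintro ⟨i, -, rfl⟩
              exact ⟨rfl, Sym2.mem_mk_left v w, Sym2.mem_mk_right v w⟩
          rw [this, Set.ncard_image_of_injective, Set.ncard_univ, Nat.card_eq_fintype_card,
            Fintype.card_fin]
          intro i i' hii
          simpa using hii
        · simp only [hj, if_false]
          have : {x : V ⊕ (G.edgeSet × Fin q) | Sum.elim lev (fun _ => k + 1) x = j ∧
              (ext G q).Adj x (Sum.inl v) ∧ (ext G q).Adj x (Sum.inl w)} =
              Sum.inl '' {x : V | lev x = j ∧ G.Adj x v ∧ G.Adj x w} := by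
            ext x
            constructor
            · rintro ⟨g1, g2, g3⟩
              rcases x with a | y
              · exact ⟨a, ⟨g1, g2, g3⟩, rfl⟩
              · rw [nr] at g1
                omega
            · rintro ⟨a, ⟨g1, g2, g3⟩, rfl⟩
              exact ⟨g1, g2, g3⟩
          rw [this, Set.ncard_image_of_injective _ Sum.inl_injective]
          exact h.cnt j h1 (by omega) v w hvw hv hw
      · rw [nr] at hw
        omega
    · rw [nr] at hv
      omega

theorem hyp_iter (p : List ℕ) (hp : ∀ q ∈ p, 0 < q) :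
    ∃ (p' : ℕ → ℕ) (lev : (iter p).1 → ℕ), HypV (iter p).2 p.length p' lev := by
  induction p using List.reverseRecOn with
  | nil => exact ⟨_, _, hyp_zero⟩
  | append_singleton p q ih =>
    obtain ⟨p', lev, h⟩ := ih (fun x hx => hp x (by simp [hx]))
    have h2 := hyp_step h (hp q (by simp))
    have e : iter (p ++ [q]) = ⟨(iter p).1 ⊕ ((iter p).2.edgeSet × Fin q), ext (iter p).2 q⟩ := by
      simp only [iter, List.foldl_append, List.foldl_cons, List.foldl_nil]
    rw [e, List.length_append, List.length_singleton]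
    exact ⟨_, _, h2⟩

theorem HypV.fin {V : Type} {G : SimpleGraph V} {k : ℕ} {p : ℕ → ℕ} {lev : V → ℕ}
    (h : HypV G k p lev) {n : ℕ} {G' : SimpleGraph (Fin n)} (φ : G ≃g G') :
    Hyp G' k p (fun x => lev (φ.symm x)) where
  pos := h.pos
  lev_le := fun v => h.lev_le _
  three := by
    have : {v : Fin n | lev (φ.symm v) = 0} = φ '' {v : V | lev v = 0} := by
      ext v
      constructor
      · intro hv
        exact ⟨φ.symm v, hv, by simp⟩
      · rintro ⟨a, ha, rfl⟩
        simpa using ha
    rw [this, Set.ncard_image_of_injective _ φ.injective]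
    exact h.three
  base := by
    intro u v h1 h2 h3
    rw [← φ.symm.map_adj_iff]
    exact h.base _ _ h1 h2 (fun e => h3 (φ.symm.injective e))
  same := by
    intro u v h1 h2
    exact h.same _ _ (φ.symm.map_adj_iff.mpr h1) h2
  par := by
    intro x hx
    obtain ⟨v, w, q1, q2, q3, q4, q5, q6, q7⟩ := h.par _ hx
    refine ⟨φ v, φ w, fun e => q1 (φ.injective e), φ.map_adj_iff.mpr q2, by simpa using q3,
      by simpa using q4, ?_, ?_, ?_⟩
    · have := φ.map_adj_iff.mpr q5
      simpa using this
    · have := φ.map_adj_iff.mpr q6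
      simpa using this
    · intro u g1 g2
      rcases q7 (φ.symm u) (φ.symm.map_adj_iff.mpr g1) g2 with e | e
      · left
        rw [← e]
        simp
      · right
        rw [← e]
        simp
  cnt := by
    intro j h1 h2 v w hvw hv hw
    have : {x : Fin n | lev (φ.symm x) = j ∧ G'.Adj x v ∧ G'.Adj x w} =
        φ '' {x : V | lev x = j ∧ G.Adj x (φ.symm v) ∧ G.Adj x (φ.symm w)} := by
      ext x
      constructor
      · rintro ⟨g1, g2, g3⟩
        exact ⟨φ.symm x, ⟨g1, φ.symm.map_adj_iff.mpr g2, φ.symm.map_adj_iff.mpr g3⟩, by simp⟩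
      · rintro ⟨a, ⟨g1, g2, g3⟩, rfl⟩
        refine ⟨by simpa using g1, ?_, ?_⟩
        · have := φ.map_adj_iff.mpr g2
          simpa using this
        · have := φ.map_adj_iff.mpr g3
          simpa using this
    rw [this, Set.ncard_image_of_injective _ φ.injective]
    exact h.cnt j h1 h2 _ _ (φ.symm.map_adj_iff.mpr hvw) hv hw

/-- The width and the height of the drawing. -/
theorem exists_drawing (p : List ℕ) (hp : ∀ q ∈ p, 0 < q) (n : ℕ) (G : SimpleGraph (Fin n))
    (hG : Nonempty ((iter p).2 ≃g G)) :
    ∃ (f : Fin n → ℤ × ℤ) (W H : ℕ), IsGridDrawing G f W H ∧ W < n ∧ H = 2 ^ (p.length + 1) ∧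
      3 ^ (p.length + 1) ≤ 2 * n := by
  obtain ⟨φ⟩ := hG
  obtain ⟨p', lev, h0⟩ := hyp_iter p hp
  have h := h0.fin φ
  obtain ⟨P, inj, d1, d2, box⟩ := drawing h
  have c1 := count h
  have c2 := three_pow h
  refine ⟨P, 3 * rr p' p.length p.length + 1, 2 ^ (p.length + 1), ⟨inj, d1, ?_, ?_⟩, by omega, rfl,
    by rw [pow_succ]; omega⟩
  · intro u v x y huv hxy hne q g1 g2
    obtain ⟨z, z1, z2, z3⟩ := d2 u v x y huv hxy
      (by rintro ⟨rfl, rfl⟩; exact hne rfl)
      (by rintro ⟨rfl, rfl⟩; exact hne Sym2.eq_swap) q g1 g2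
    exact ⟨z, Sym2.mem_iff.mpr z1, Sym2.mem_iff.mpr z2, z3⟩
  · intro v
    obtain ⟨b1, b2, b3, b4⟩ := box v
    refine ⟨b1, by push_cast; exact b2, b3, by push_cast; exact b4⟩

theorem area_bound (m n : ℕ) (h : 3 ^ (m + 1) ≤ 2 * n) :
    ((n : ℝ) * 2 ^ (m + 1)) ≤ 2 * (n : ℝ) ^ (Real.logb 3 6) := by
  have hn : 0 < n := by
    rcases Nat.eq_zero_or_pos n with rfl | hn
    · have : 0 < 3 ^ (m + 1) := by positivity
      omega
    · exact hn
  have hn' : (0 : ℝ) < n := by exact_mod_cast hn
  have h3 : 3 ^ m ≤ n := by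
    rw [pow_succ] at h
    omega
  have h3' : (3 : ℝ) ^ (m : ℝ) ≤ n := by
    rw [Real.rpow_natCast]
    exact_mod_cast h3
  have e1 : Real.logb 3 6 = 1 + Real.logb 3 2 := by
    rw [show (6 : ℝ) = 3 * 2 by norm_num, Real.logb_mul (by norm_num) (by norm_num),
      Real.logb_self_eq_one (by norm_num)]
  have l0 : 0 ≤ Real.logb 3 2 := Real.logb_nonneg (by norm_num) (by norm_num)
  have e2 : (2 : ℝ) ^ m ≤ (n : ℝ) ^ Real.logb 3 2 := by
    have k1 := Real.rpow_le_rpow (by positivity) h3' l0
    rwa [← Real.rpow_mul (by norm_num), mul_comm, Real.rpow_mul (by norm_num),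
      Real.rpow_logb (by norm_num) (by norm_num) (by norm_num), Real.rpow_natCast] at k1
  rw [e1, Real.rpow_add hn', Real.rpow_one, pow_succ]
  nlinarith [mul_le_mul_of_nonneg_left e2 hn'.le]

/-- A drawing of a graph is also a drawing of its subgraphs. -/
theorem IsGridDrawing.mono {V : Type} {G G' : SimpleGraph V} {f : V → ℤ × ℤ} {W H : ℕ}
    (hle : G ≤ G') (h : IsGridDrawing G' f W H) : IsGridDrawing G f W H where
  inj := h.inj
  vertex := fun u v w huv => h.vertex u v w (hle huv)
  cross := fun u v x y huv hxy => h.cross u v x y (hle huv) (hle hxy)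
  box := h.box

/-- Every spanning subgraph of a graph `G(p₁, …, p_k)` on `n` vertices has a straight-line grid
drawing of area at most `2 n ^ (log₃ 6)`. -/
theorem result (p : List ℕ) (_ : p ≠ []) (hp : ∀ q ∈ p, 0 < q) (n : ℕ)
    (G G₀ : SimpleGraph (Fin n)) (hle : G ≤ G₀) (hG : Nonempty ((iter p).2 ≃g G₀)) :
    ∃ (f : Fin n → ℤ × ℤ) (W H : ℕ), IsGridDrawing G f W H ∧
      ((W * H : ℕ) : ℝ) ≤ 2 * (n : ℝ) ^ (Real.logb 3 6) := by
  obtain ⟨f, W, H, h1, h2, h3, h4⟩ := exists_drawing p hp n G₀ hG
  refine ⟨f, W, H, h1.mono hle, ?_⟩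
  refine le_trans ?_ (area_bound p.length n h4)
  rw [h3]
  push_cast
  have : (W : ℝ) ≤ n := by exact_mod_cast h2.le
  exact mul_le_mul_of_nonneg_right this (by positivity)

end Pool.Agent.Results.MP_68dca0_co.IteratedTriangles
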